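import Pool.Agent.Q284.CP.Nd

/-!
# Meromorphic continuation to `s = 1` forces an algebraic Sato–Tate law

Let `A` be an abelian variety of dimension `g` over a number field `K`.  The class of the Frobenius at a prime `v` in `USp(2g)` is
given by `t_v ∈ T = (ℝ/ℤ)^g`, up to the Weyl group `W` of order `2^g g!`.  For a weight `k ∈ ℤ^g` let
`L_k(s) = ∏_v ∏_{w ∈ W} (1 - e(⟨wk, t_v⟩) q_v^{-s})⁻¹`.  Since the representation ring of `USp(2g)` is `ℤ[ℤ^g]^W`, the functions
`L(π, s)` of the irreducible representations `π` of `USp(2g)` are all meromorphic at `s = 1` if and only if this holds for the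
Euler products over the orbits `W k` (unitriangularity of the weight multiplicities), and `L_k` is a power of such an Euler
product.  In the known theorems (Serre) one needs that the `L(π, s)` have neither zeros nor poles at `s = 1`.

The theorem of this file says what remains if one only knows the meromorphic continuation to the point `s = 1`: the law exists, and
it is algebraic; it is of the form

  `ν = (1/|W|) ∑_j P_j · Haar(H_j)`,   `j ≤ N ≤ |W|`,

where the `H_j` are closed subgroups of the maximal torus, and the `P_j` are trigonometric polynomials with integer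
coefficients, `P_j ≥ 0` on `H_j`.  If `H_j` is not the whole torus, then the classes are concentrated: there is a weight `d ≠ 0` such
that, for all `δ > 0`, one of the `|W|` numbers `e(⟨wd, t_v⟩)` has distance less than `δ` from `1` for a set of primes `v` of lower
density at least `1/|W|`.  If there is no such concentration, then the law has a density which is a trigonometric polynomial, and only
finitely many of the functions `L_k` have a zero or a pole at `s = 1`.

We prove this for `n` points `x_{i,v}` of a torus `(ℝ/ℤ)^r` for every prime `v`, and the Euler products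
`L_k(s) = ∏_v ∏_i (1 - e(⟨k, x_{i,v}⟩) q_v^{-s})⁻¹`, `k ∈ ℤ^r`.  This contains the case of abelian varieties (take `r = g` and the
`n = |W|` points `w t_v`), that of a compact connected Lie group with maximal torus `T` and Weyl group `W`, hence all pure motives,
and, for `r = 1`, the law of the eigenvalues `α_{1,v}, ..., α_{n,v}` of any motive of rank `n` (the `L_k(s)` are then the
functions `∏_v ∏_i (1 - α_{i,v}^k q_v^{-s})⁻¹`).  At the finitely many bad primes the points are arbitrary.

Proof: the order `φ(k)` of the pole of `L_k` at `s = 1` is the mean value of `∑_i e(⟨k, x_{i,v}⟩)` (for the imaginary part one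
follows the argument of the continuation on the real axis).  So `φ` is a positive definite function on
`ℤ^r` with integer values.  Theorem: such a function is a finite sum of positive definite functions with integer values,
each of which is periodic with respect to a subgroup `G` and has finite support modulo `G` (a version of the idempotent theorem of
Cohen, with a short proof: among the nonzero weak limits of the translates in the Hilbert space of `φ` take one with the smallest norm,
its correlation function is of this form, and the difference is again positive definite).  The subgroup `H` is the annihilator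
of `G`.
-/

set_option autoImplicit false
set_option linter.unusedSectionVars false

namespace Pool.Agent.Results.MP_c481b3_nt.AlgebraicLaw

open NumberField IsDedekindDomain Filter Topology MeasureTheory UnitAddTorus

section

variable {K : Type} [Field K] [NumberField K]

/-- The norm of a prime. -/
noncomputable def q (v : HeightOneSpectrum (𝓞 K)) : ℕ := Ideal.absNorm v.asIdeal

/-- `φ` has the mean value `c`, in the sense of the Dirichlet density. -/
def HasMean (φ : HeightOneSpectrum (𝓞 K) → ℝ) (c : ℝ) : Prop :=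
  Tendsto (fun ε : ℝ => (∑' v, φ v * (q v : ℝ) ^ (-(1 + ε))) / ∑' v, (q (K := K) v : ℝ) ^ (-(1 + ε)))
    (𝓝[>] 0) (𝓝 c)

/-- `φ` has the mean value `c`, in the sense of the natural density. -/
def HasAverage (φ : HeightOneSpectrum (𝓞 K) → ℝ) (c : ℝ) : Prop :=
  Tendsto (fun N : ℕ => (∑ᶠ v : {v : HeightOneSpectrum (𝓞 K) // q v ≤ N}, φ v.1) /
    (Nat.card {v : HeightOneSpectrum (𝓞 K) // q v ≤ N} : ℝ)) atTop (𝓝 c)

open Classical in
/-- The lower Dirichlet density of the set of the primes with the property `S` is at least `c`. -/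
def LowerDensity (S : HeightOneSpectrum (𝓞 K) → Prop) (c : ℝ) : Prop :=
  ∀ η : ℝ, 0 < η → ∀ᶠ ε : ℝ in 𝓝[>] 0, c - η ≤
    (∑' v, (if S v then (1 : ℝ) else 0) * (q v : ℝ) ^ (-(1 + ε))) /
      ∑' v, (q (K := K) v : ℝ) ^ (-(1 + ε))

variable {r : ℕ} {ι : Type} [Fintype ι]
  (x : ι → HeightOneSpectrum (𝓞 K) → UnitAddTorus (Fin r))

/-- The Euler product `L_k(s) = ∏_v ∏_i (1 - e(⟨k, x_{i,v}⟩) q_v^{-s})⁻¹`; here `mFourier k y = e(⟨k, y⟩)` is the character
of the torus with the index `k`. -/
noncomputable def eulerL (k : Fin r → ℤ) (s : ℂ) : ℂ :=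
  ∏' v, (∏ i, (1 - mFourier k (x i v) * (q v : ℂ) ^ (-s)))⁻¹

/-- `Λ` is a meromorphic continuation of `L_k(s)` to a neighbourhood of `1 + iτ`. -/
def IsContinuation (k : Fin r → ℤ) (τ : ℝ) (Λ : ℂ → ℂ) : Prop :=
  MeromorphicAt Λ (1 + τ * Complex.I) ∧
    ∀ᶠ s in 𝓝 ((1 : ℂ) + τ * Complex.I), (1 : ℝ) < s.re → Λ s = eulerL x k s

end

section

variable {r : ℕ}

/-- The closed subgroup of the torus `(ℝ/ℤ)^r` on which the characters in `G` are trivial. -/
def annihilator (G : AddSubgroup (Fin r → ℤ)) : AddSubgroup (UnitAddTorus (Fin r)) where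
  carrier := {y | ∀ k ∈ G, mFourier k y = 1}
  zero_mem' := (Pool.Agent.Q284.CP.ann G).zero_mem'
  add_mem' := (Pool.Agent.Q284.CP.ann G).add_mem'
  neg_mem' := (Pool.Agent.Q284.CP.ann G).neg_mem'

instance (G : AddSubgroup (Fin r → ℤ)) : CompactSpace (annihilator G) :=
  inferInstanceAs (CompactSpace (Pool.Agent.Q284.CP.ann G))

/-- The Haar probability measure of this compact group. -/
noncomputable def haar (G : AddSubgroup (Fin r → ℤ)) : Measure (annihilator G) :=
  Measure.addHaarMeasure ⊤

/-- The real trigonometric polynomial `∑_k c_k cos(2π⟨k, y⟩)` with integer coefficients. -/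
noncomputable def trig (c : (Fin r → ℤ) →₀ ℤ) (y : UnitAddTorus (Fin r)) : ℝ :=
  c.sum fun k n => (n : ℝ) * (mFourier k y).re

/-- The integral of `f` with respect to `∑_j P_j · Haar(H_j)`, where `H_j` is the annihilator of `G_j`. -/
noncomputable def integral {N : ℕ} (G : Fin N → AddSubgroup (Fin r → ℤ))
    (c : Fin N → ((Fin r → ℤ) →₀ ℤ)) (f : UnitAddTorus (Fin r) → ℝ) : ℝ :=
  ∑ j, ∫ y : annihilator (G j), f y.1 * trig (c j) y.1 ∂(haar (G j))

end

section Bridge

open Pool.Agent.Q284.IM Pool.Agent.Q284.CP Pool.Agent.TH553.ST Pool.Agent.TH553.RS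
  Pool.Agent.W540.BE

variable {K : Type} [Field K] [NumberField K]

theorem mean_iff {φ : HeightOneSpectrum (𝓞 K) → ℝ} {c : ℝ} :
    HasMean φ c ↔ Tendsto (dm φ) (𝓝[>] 0) (𝓝 c) := by
  unfold HasMean
  have : (fun ε : ℝ => (∑' v, φ v * (q v : ℝ) ^ (-(1 + ε))) /
      ∑' v, (q (K := K) v : ℝ) ^ (-(1 + ε))) = dm φ := by
    funext ε
    unfold dm EP
    simp only [one_mul]
    rfl
  rw [this]

theorem avg_iff {φ : HeightOneSpectrum (𝓞 K) → ℝ} {c : ℝ} :
    HasAverage φ c ↔ Tendsto (mn φ) atTop (𝓝 c) := by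
  unfold HasAverage
  have : (fun N : ℕ => (∑ᶠ v : {v : HeightOneSpectrum (𝓞 K) // q v ≤ N}, φ v.1) /
      (Nat.card {v : HeightOneSpectrum (𝓞 K) // q v ≤ N} : ℝ)) = mn φ := by
    funext N
    have hs : ∀ v, v ∈ upto K N ↔ q v ≤ N := fun v => mem_upto
    let e : {v : HeightOneSpectrum (𝓞 K) // q v ≤ N} ≃ (upto K N) :=
      Equiv.subtypeEquivRight fun v => (hs v).symm
    have hfin : Finite {v : HeightOneSpectrum (𝓞 K) // q v ≤ N} := Finite.of_equiv _ e.symm
    unfold mn
    have h1 : (∑ᶠ v : {v : HeightOneSpectrum (𝓞 K) // q v ≤ N}, φ v.1) = ∑ v ∈ upto K N, φ v := by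
      rw [← Finset.sum_coe_sort, ← finsum_eq_sum_of_fintype, ← finsum_comp_equiv e]
      rfl
    have h2 : Nat.card {v : HeightOneSpectrum (𝓞 K) // q v ≤ N} = (upto K N).card := by
      rw [Nat.card_congr e, Nat.card_eq_fintype_card, Fintype.card_coe]
    rw [h1, h2, smul_eq_mul, div_eq_inv_mul]
  rw [this]

theorem lower_of {S : HeightOneSpectrum (𝓞 K) → Prop} {φ : HeightOneSpectrum (𝓞 K) → ℝ}
    (hφ : Bd φ) (hS : ∀ v, φ v = open Classical in if S v then (1 : ℝ) else 0) {c : ℝ}
    (h : ∀ U : Ultrafilter ℝ, (U : Filter ℝ) ≤ 𝓝[>] 0 → c ≤ M (nm K) U φ) : LowerDensity S c := by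
  classical
  intro η hη
  have e : (fun ε : ℝ => (∑' v, (if S v then (1 : ℝ) else 0) * (q v : ℝ) ^ (-(1 + ε))) /
      ∑' v, (q (K := K) v : ℝ) ^ (-(1 + ε))) = dm φ := by
    funext ε
    unfold dm EP
    simp only [one_mul, hS]
    rfl
  have e' : ∀ ε : ℝ, (∑' v, (if S v then (1 : ℝ) else 0) * (q v : ℝ) ^ (-(1 + ε))) /
      ∑' v, (q (K := K) v : ℝ) ^ (-(1 + ε)) = dm φ ε := fun ε => congrFun e ε
  simp_rw [e']
  by_contra hc
  rw [Filter.not_eventually] at hc
  have := Filter.frequently_iff_neBot.1 hc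
  set U : Ultrafilter ℝ := Ultrafilter.of (𝓝[>] 0 ⊓ 𝓟 {ε | ¬ c - η ≤ dm φ ε}) with hU
  have hU1 : (U : Filter ℝ) ≤ 𝓝[>] 0 := (Ultrafilter.of_le _).trans inf_le_left
  have hU2 : ∀ᶠ ε in (U : Filter ℝ), ¬ c - η ≤ dm φ ε :=
    (Ultrafilter.of_le _).trans inf_le_right (mem_principal_self _)
  have h1 : Tendsto (dm φ) U (𝓝 (M (nm K) U φ)) := by
    have h2 := (M_lim (sysF K) hU1 hφ).div ((sysF K).one.mono_left hU1) one_ne_zero
    rw [div_one] at h2
    refine h2.congr' ?_
    filter_upwards [hU1 lam_ne] with ε hε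
    exact (dm_eq hε).symm
  have h3 := h U hU1
  have h4 : ∀ᶠ ε in (U : Filter ℝ), c - η < dm φ ε := h1.eventually (lt_mem_nhds (by linarith))
  obtain ⟨ε, h5, h6⟩ := (hU2.and h4).exists
  exact h5 h6.le

variable {r : ℕ} {ι : Type} [Fintype ι] (x : ι → HeightOneSpectrum (𝓞 K) → UnitAddTorus (Fin r))

/-- the points, numbered -/
noncomputable def num (i : Fin (Fintype.card ι)) : HeightOneSpectrum (𝓞 K) → UnitAddTorus (Fin r) :=
  x ((Fintype.equivFin ι).symm i)

theorem sum_num (f : UnitAddTorus (Fin r) → ℝ) (v : HeightOneSpectrum (𝓞 K)) :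
    ∑ i, f (num x i v) = ∑ i, f (x i v) :=
  Equiv.sum_comp (Fintype.equivFin ι).symm fun i => f (x i v)

theorem eulerL_eq (k : Fin r → ℤ) (s : ℂ) : eulerL x k s = EL (em (num x) k) s := by
  unfold eulerL EL
  refine tprod_congr fun v => ?_
  congr 1
  exact (Equiv.prod_comp (Fintype.equivFin ι).symm fun i =>
    1 - mFourier k (x i v) * (q v : ℂ) ^ (-s)).symm

theorem ce_iff {k : Fin r → ℤ} {τ : ℝ} {Λ : ℂ → ℂ} :
    IsContinuation x k τ Λ ↔ Ce (em (num x) k) τ Λ := by
  unfold IsContinuation Ce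
  simp only [eulerL_eq]

theorem int_eq {N : ℕ} (G : Fin N → AddSubgroup (Fin r → ℤ)) (c : Fin N → ((Fin r → ℤ) →₀ ℤ))
    (f : UnitAddTorus (Fin r) → ℝ) : integral G c f = Bf G c f := rfl

end Bridge

/-- **Meromorphic continuation to `s = 1` forces an algebraic law.**  Let `K` be a number field, and let `x_{i,v} ∈ (ℝ/ℤ)^r`,
`i ∈ ι`, be `n = |ι| ≥ 1` points for every prime `v` of `K`, such that the Euler products
`L_k(s) = ∏_v ∏_i (1 - e(⟨k, x_{i,v}⟩) q_v^{-s})⁻¹` have meromorphic continuations to neighbourhoods of `s = 1`, for all `k ∈ ℤ^r`.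
Then there are `N ≤ n` subgroups `G_j` of `ℤ^r`, with annihilators `H_j`, and trigonometric polynomials `P_j` with integer
coefficients, such that

* `P_j ≥ 0` on `H_j`, and the integral of `P_j` over `H_j` is a positive integer;
* for all continuous functions `f` the function `∑_i f(x_{i,v})` has the mean value `∑_j ∫_{H_j} f P_j` (Dirichlet density);
* the order of the pole of `L_k` at `s = 1` is `∑_j ∫_{H_j} e_k P_j`, for all `k`;
* (concentration) if `d ∈ G_j`, then for all `δ > 0` the primes `v` with `|e(⟨d, x_{i,v}⟩) - 1| < δ` for at least one `i`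
  have a lower density at least `1/n`;
* (no concentration) if all the `G_j` are zero, then all but finitely many of the functions `L_k` have neither a zero nor a pole
  at `s = 1`;
* if all the `L_k` are meromorphic at all points of `Re s = 1`, then the law of the second item holds for the natural density if and
  only if none of the `L_k` has a zero or a pole at a point `1 + iτ` with `τ ≠ 0`. -/
theorem result (K : Type) [Field K] [NumberField K] (r : ℕ) (ι : Type) [Fintype ι] [Nonempty ι]
    (x : ι → HeightOneSpectrum (𝓞 K) → UnitAddTorus (Fin r))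
    (hL : ∀ k : Fin r → ℤ, ∃ Λ, IsContinuation x k 0 Λ) :
    ∃ (N : ℕ) (G : Fin N → AddSubgroup (Fin r → ℤ)) (c : Fin N → ((Fin r → ℤ) →₀ ℤ)),
      N ≤ Fintype.card ι ∧
      (∀ j, ∀ y ∈ annihilator (G j), 0 ≤ trig (c j) y) ∧
      (∀ j, ∃ m : ℕ, 0 < m ∧ ∫ y : annihilator (G j), trig (c j) y.1 ∂(haar (G j)) = m) ∧
      (∀ f : UnitAddTorus (Fin r) → ℝ, Continuous f →
        HasMean (fun v => ∑ i, f (x i v)) (integral G c f)) ∧
      (∀ k Λ, IsContinuation x k 0 Λ → ∃ m : ℤ, meromorphicOrderAt Λ 1 = ((-m : ℤ) : WithTop ℤ) ∧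
        (m : ℝ) = integral G c fun y => (mFourier k y).re) ∧
      (∀ j, ∀ d ∈ G j, ∀ δ : ℝ, 0 < δ →
        LowerDensity (fun v => ∃ i, ‖mFourier d (x i v) - 1‖ < δ) (1 / Fintype.card ι)) ∧
      ((∀ j, G j = ⊥) →
        {k | ∃ Λ, IsContinuation x k 0 Λ ∧ meromorphicOrderAt Λ 1 ≠ 0}.Finite) ∧
      ((∀ (k : Fin r → ℤ) (τ : ℝ), ∃ Λ, IsContinuation x k τ Λ) →
        ((∀ f : UnitAddTorus (Fin r) → ℝ, Continuous f →
          HasAverage (fun v => ∑ i, f (x i v)) (integral G c f)) ↔
        ∀ (k : Fin r → ℤ) (τ : ℝ), τ ≠ 0 → ∀ Λ, IsContinuation x k τ Λ →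
          meromorphicOrderAt Λ (1 + τ * Complex.I) = 0)) := by
  open Pool.Agent.Q284.IM Pool.Agent.Q284.CP Pool.Agent.TH553.RS Pool.Agent.TH553.ST in
  have hne : NeZero (Fintype.card ι) := ⟨Fintype.card_ne_zero⟩
  simp only [ce_iff] at hL ⊢
  obtain ⟨φ, hφ1, hφ2⟩ := exists_ord (num x) hL
  obtain ⟨N, G, c, h1, h2, h3, h4, h5, h6, h7, h8⟩ := law (num x) hφ2
  refine ⟨N, G, c, h1, h2, h3, fun f hf => ?_, fun k Λ hΛ => ⟨φ k, hφ1 k Λ hΛ, h6 k⟩,
    fun j d hd δ hδ => ?_, fun hbot => ?_, fun hline => ⟨fun hnat k τ hτ Λ hΛ => ?_,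
    fun h0 f hf => ?_⟩⟩
  · refine mean_iff.2 (dm_tendsto ?_ fun U hU => ?_)
    · have := bd_f (num x) hf
      simp only [sum_num] at this
      exact this
    · have := h5 U hU f hf
      unfold A at this
      simp only [sum_num] at this
      exact this
  · refine lower_of (φ := nbh (num x) d δ) (bd_nbh _ _ _) (fun v => ?_) fun U hU =>
      conc (num x) h3 h4 h5 hd hδ hU
    classical
    unfold nbh
    have e : (∃ i, ‖mFourier d (num x i v) - 1‖ < δ) ↔ ∃ i, ‖mFourier d (x i v) - 1‖ < δ := by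
      constructor
      · rintro ⟨i, hi⟩
        exact ⟨_, hi⟩
      · rintro ⟨i, hi⟩
        refine ⟨Fintype.equivFin ι i, ?_⟩
        unfold num
        rw [Equiv.symm_apply_apply]
        exact hi
    by_cases hv : ∃ i, ‖mFourier d (x i v) - 1‖ < δ
    · rw [if_pos (e.2 hv), if_pos hv]
    · rw [if_neg (fun h => hv (e.1 h)), if_neg hv]
  · refine (h8 hbot).subset ?_
    rintro k ⟨Λ, hΛ, hk⟩
    rw [Set.mem_ofPred_eq]
    intro h9
    refine hk ?_
    rw [hφ1 k Λ hΛ, h9, neg_zero]
    rfl
  · refine line_of_nat (num x) h6 h7 (fun f hf => ?_) hτ hΛ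
    have := avg_iff.1 (hnat f hf)
    simp only [sum_num]
    exact this
  · have := nat_law (num x) h6 h7 hφ1 hline (fun k τ hτ Λ hΛ => h0 k τ hτ Λ hΛ) hf
    simp only [sum_num] at this
    exact avg_iff.2 this

end Pool.Agent.Results.MP_c481b3_nt.AlgebraicLaw
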