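import Pool.Agent.Y57.FD.Tup0
import Pool.Agent.Q282.HL.Mean

/-!
# The Sato–Tate law for the class functions of degree at most `2 g + 1` and almost all hyperelliptic Jacobians

`A` is the Jacobian of the hyperelliptic curve `C : Y ^ 2 = X ^ (2 g + 1) + m (2 g) X ^ (2 g) + ... + m 0` of genus `g ≥ 1` over
`ℚ`.  At an odd prime `p` for which the polynomial is separable modulo `p` the curve has good reduction, and the conjugacy class
`x_p` of `USp(2g)` is given by the normalised `L`-polynomial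
`det (1 - T x_p) = ∑ a_n(p) T ^ n`, `∑ a_n(p) √p ^ n T ^ n = exp (∑ (#C(F_{p ^ r}) - p ^ r - 1) T ^ r / r)`.

The integral of `∏ a_{i_j}` over `USp(2g)`, for `∑ i_j ≤ 2 g + 1`, is (up to the sign `(-1) ^ (∑ i_j)`, which is `1` if it is not
zero) the multiplicity of the trivial representation in the product of the exterior powers `Λ ^ {i_j}` of the standard
representation, which is the number of the symmetric matrices with entries in `ℕ`, even entries on the diagonal and row sums `i_j`.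
The monomials `∏ a_{i_j}` with `∑ i_j ≤ 2 g + 1` span the space of the characters of `USp(2g)` of degree at most `2 g + 1`.
-/

set_option autoImplicit false

namespace Pool.Agent.Results.MP_c481b3_nt.ClassFunctionsHyperelliptic

open Finset

open Classical in
/-- The number of the solutions of `Y ^ 2 = X ^ (2 g + 1) + m (2 g) X ^ (2 g) + ... + m 0` in the field with `p ^ r` elements: the
number of the points of the curve over `F_{p ^ r}`, the point at infinity not included (`p` is a prime, `r ≥ 1`). -/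
noncomputable def points {g : ℕ} (p r : ℕ) (m : Fin (2 * g + 1) → ℕ) : ℕ :=
  if h : p.Prime then
    haveI : Fact p.Prime := ⟨h⟩
    Nat.card {P : GaloisField p r × GaloisField p r //
      P.2 ^ 2 = P.1 ^ (2 * g + 1) + ∑ i, (m i : GaloisField p r) * P.1 ^ (i : ℕ)}
  else 0

/-- The coefficients of the power series `exp (∑ T r X ^ r / r)`: `c 0 = 1` and `n * c n = ∑ c (n - r) * T r`, the sum over
`r = 1, ..., n`. -/
noncomputable def expCoeff (T : ℕ → ℝ) : ℕ → ℝ
  | 0 => 1
  | n + 1 => (∑ r : Fin (n + 1), expCoeff T (n - r) * T (r + 1)) / (n + 1)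
termination_by n => n
decreasing_by omega

/-- `p` is odd and `X ^ (2 g + 1) + m (2 g) X ^ (2 g) + ... + m 0` is separable modulo `p`, so that the curve
`Y ^ 2 = X ^ (2 g + 1) + m (2 g) X ^ (2 g) + ... + m 0` has good reduction at `p`. -/
def Good {g : ℕ} (p : ℕ) (m : Fin (2 * g + 1) → ℕ) : Prop :=
  p ≠ 2 ∧ (Polynomial.X ^ (2 * g + 1) +
    ∑ i, Polynomial.C (m i : ZMod p) * Polynomial.X ^ (i : ℕ) : Polynomial (ZMod p)).Separable

open Classical in
/-- The coefficient `a_n(p)` of `T ^ n` of the normalised `L`-polynomial `det (1 - T x_p)` at the prime `p` of the Jacobian of the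
curve `C : Y ^ 2 = X ^ (2 g + 1) + m (2 g) X ^ (2 g) + ... + m 0`: the coefficient of `T ^ n` in
`exp (∑ (#C(F_{p ^ r}) - p ^ r - 1) T ^ r / r)` divided by `√p ^ n`; it is put equal to `0` if the curve does not have the
property `Good p m`. -/
noncomputable def coef {g : ℕ} (p n : ℕ) (m : Fin (2 * g + 1) → ℕ) : ℝ :=
  if Good p m then expCoeff (fun r => (points p r m : ℝ) - (p : ℝ) ^ r) n / (Real.sqrt p) ^ n else 0

/-- The number of the symmetric matrices with entries in `ℕ`, even entries on the diagonal and row sums `i 0, i 1, ...`: for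
`∑ i j ≤ 2 g + 1` this is the integral of the product of the coefficients of `T ^ (i j)` of `det (1 - T x)` over `USp(2g)`. -/
noncomputable def haar {l : ℕ} (i : Fin l → ℕ) : ℕ :=
  Nat.card {S : Matrix (Fin l) (Fin l) ℕ // (∀ j k, S j k = S k j) ∧ (∀ j, Even (S j j)) ∧ ∀ j, ∑ k, S j k = i j}

/-- For all weights in `W` and all monomials `∏ a_{i_j}` of degree `∑ i_j ≤ 2 g + 1` the sum `∑ w k ∏ a_{i_j}(p_k)` over the
first `n` primes `p_0 = 2, p_1 = 3, ...` differs from the sum of the weights times the integral of `∏ a_{i_j}` over `USp(2g)`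
by at most `(max 1 (∑ w k ^ 2)) ^ (1 / 2) n ^ δ`. -/
def SatoTate {g : ℕ} (δ : ℝ) (W : Set (ℕ → ℝ)) (n : ℕ) (m : Fin (2 * g + 1) → ℕ) : Prop :=
  ∀ w ∈ W, ∀ i : Fin (2 * g + 1) → ℕ, ∑ j, i j ≤ 2 * g + 1 →
    |∑ k ∈ range n, w k * ∏ j, coef (Nat.nth Nat.Prime k) (i j) m - (∑ k ∈ range n, w k) * haar i| ≤
      Real.sqrt (max 1 (∑ k ∈ range n, w k ^ 2)) * (n : ℝ) ^ δ

/-- The digit number `i` (counted from the right, beginning with `0`) of `n` in base `b`. -/
def digit (b i n : ℕ) : ℕ := n / b ^ i % b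

/-- The number which arises from the number `N` with at most `K` digits in base `b`, if for every `i ∈ S`
the digit number `i` is replaced by `f i`. -/
def change (b K N : ℕ) (f : ℕ → ℕ) (S : Finset ℕ) : ℕ :=
  ∑ i ∈ range K, (if i ∈ S then f i else digit b i N) * b ^ i

open Classical in
/-- The number of the choices of `r l` of `K l` positions for all `l < d` for which the vector of the numbers obtained by
changing the digits of the `N l` at the chosen positions (according to `f l`) does not have the property `E`. -/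
noncomputable def exceptions {d : ℕ} (b : ℕ) (K r N : Fin d → ℕ) (f : Fin d → ℕ → ℕ) (E : (Fin d → ℕ) → Prop) : ℕ :=
  ((Fintype.piFinset (fun l => powersetCard (r l) (range (K l)))).filter
    (fun S => ¬ E (fun l => change b (K l) (N l) (f l) (S l)))).card

lemma exc_eq {d : ℕ} (b : ℕ) (K r N : Fin d → ℕ) (f : Fin d → ℕ → ℕ) (E : (Fin d → ℕ) → Prop) :
    exceptions b K r N f E = Pool.Agent.Y57.FD.exceptions b K r N f E := rfl

lemma card_affine {F : Type} [Field F] [Fintype F] [DecidableEq F] (hchar : ringChar F ≠ 2) (f : F → F) :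
    (Nat.card {P : F × F // P.2 ^ 2 = f P.1} : ℝ) = (Fintype.card F : ℝ) + ∑ x : F, (quadraticChar F (f x) : ℝ) := by
  classical
  have h1 : Nat.card {P : F × F // P.2 ^ 2 = f P.1} = ∑ x : F, Nat.card {y : F // y ^ 2 = f x} := by
    rw [← Nat.card_sigma]
    refine Nat.card_congr ⟨fun P => ⟨P.1.1, ⟨P.1.2, P.2⟩⟩, fun P => ⟨(P.1, P.2.1), P.2.2⟩, fun _ => rfl, fun _ => rfl⟩
  have h2 : ∀ x : F, ((Nat.card {y : F // y ^ 2 = f x} : ℕ) : ℤ) = quadraticChar F (f x) + 1 := by
    intro x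
    rw [← quadraticChar_card_sqrts hchar (f x)]
    congr 1
    rw [Nat.card_eq_fintype_card, Fintype.card_subtype]
    congr 1
    ext y
    simp
  rw [h1]
  push_cast
  have h3 : ∀ x : F, ((Nat.card {y : F // y ^ 2 = f x} : ℕ) : ℝ) = (quadraticChar F (f x) : ℝ) + 1 := by
    intro x
    have := h2 x
    exact_mod_cast this
  rw [sum_congr rfl (fun x _ => h3 x), sum_add_distrib, sum_const, card_univ, nsmul_eq_mul, mul_one]
  ring

lemma points_eq {g : ℕ} (p : ℕ) [Fact p.Prime] (hp2 : p ≠ 2) (r : ℕ) (hr : 1 ≤ r) (m : Fin (2 * g + 1) → ℕ) :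
    (points p r m : ℝ) - (p : ℝ) ^ r =
      Pool.Agent.H341R2.Sharp.T (Q282.HL.mpol (2 * g + 1) (fun i => (m i : ZMod p))) r := by
  classical
  have hp : p.Prime := Fact.out
  have hcharF : ringChar (ZMod p) ≠ 2 := by
    rw [ZMod.ringChar_zmod_n]
    exact hp2
  let _ : Fintype (GaloisField p r) := Fintype.ofFinite _
  have hfr : Module.finrank (ZMod p) (GaloisField p r) = r := GaloisField.finrank p (by omega)
  have hcard : (Fintype.card (GaloisField p r) : ℝ) = (p : ℝ) ^ r := by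
    rw [Module.card_eq_pow_finrank (K := ZMod p) (V := GaloisField p r), hfr, ZMod.card]
    push_cast
    rfl
  have hcharE : ringChar (GaloisField p r) ≠ 2 := by
    rwa [← Algebra.ringChar_eq (ZMod p) (GaloisField p r)]
  have h4 := Pool.Agent.H341R2.Sharp.T_eq_sum (E := GaloisField p r) hcharF
    (Q282.HL.mpol (2 * g + 1) (fun i => (m i : ZMod p)))
  rw [hfr] at h4
  unfold points
  rw [dif_pos hp, card_affine hcharE (fun x => x ^ (2 * g + 1) + ∑ i, (m i : GaloisField p r) * x ^ (i : ℕ)), hcard,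
    add_sub_cancel_left, h4]
  push_cast
  refine sum_congr rfl fun x _ => ?_
  congr 2
  unfold Q282.HL.mpol Q282.HL.low
  simp only [map_add, map_pow, Polynomial.aeval_X, map_sum, map_mul, map_natCast]

lemma expCoeff_eq {g : ℕ} (p : ℕ) [Fact p.Prime] (hp2 : p ≠ 2) (m : Fin (2 * g + 1) → ℕ) (n : ℕ) :
    expCoeff (fun r => (points p r m : ℝ) - (p : ℝ) ^ r) n =
      Pool.Agent.H341R2.Sharp.A (Q282.HL.mpol (2 * g + 1) (fun i => (m i : ZMod p))) n := by
  induction n using Nat.strong_induction_on with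
  | _ n ih =>
    rcases n with _ | n
    · rw [expCoeff, Pool.Agent.H341R2.Sharp.A_zero]
      simp
    · have h1 := Pool.Agent.H341R2.Sharp.n_mul_A (Q282.HL.mpol (2 * g + 1) (fun i => (m i : ZMod p))) (n + 1)
      have h2 : ((n : ℝ) + 1) * (Pool.Agent.H341R2.Sharp.A (Q282.HL.mpol (2 * g + 1) (fun i => (m i : ZMod p))) (n + 1) : ℝ) =
          ∑ r ∈ Icc 1 (n + 1), (Pool.Agent.H341R2.Sharp.A (Q282.HL.mpol (2 * g + 1) (fun i => (m i : ZMod p))) (n + 1 - r) : ℝ) *
            Pool.Agent.H341R2.Sharp.T (Q282.HL.mpol (2 * g + 1) (fun i => (m i : ZMod p))) r := by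
        exact_mod_cast h1
      have hn : ((n : ℝ) + 1) ≠ 0 := by positivity
      have h3 : ∀ F : ℕ → ℝ, ∑ r ∈ Icc 1 (n + 1), F r = ∑ r : Fin (n + 1), F (r + 1) := by
        intro F
        rw [Fin.sum_univ_eq_sum_range (fun r => F (r + 1)) (n + 1)]
        symm
        refine sum_nbij' (fun r => r + 1) (fun r => r - 1) ?_ ?_ ?_ ?_ ?_
        · intro r hr
          rw [mem_range] at hr
          rw [mem_Icc]
          omega
        · intro r hr
          rw [mem_Icc] at hr
          rw [mem_range]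
          omega
        · intro r _
          exact Nat.add_sub_cancel r 1
        · intro r hr
          rw [mem_Icc] at hr
          exact Nat.sub_add_cancel hr.1
        · intro r _
          rfl
      rw [expCoeff, div_eq_iff hn, mul_comm _ ((n : ℝ) + 1), h2, h3]
      refine sum_congr rfl fun r _ => ?_
      have hr : (r : ℕ) < n + 1 := r.2
      rw [ih (n - r) (by omega), points_eq p hp2 (r + 1) (by omega) m]
      congr 3
      omega

lemma prod_eq {g : ℕ} (i : Fin (2 * g + 1) → ℕ) (p : ℕ) (hp : p.Prime) (m : Fin (2 * g + 1) → ℕ) :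
    ∏ j, coef p (i j) m = Q282.HL.prodA g i p m := by
  classical
  have : Fact p.Prime := ⟨hp⟩
  unfold coef Q282.HL.prodA
  by_cases h2 : p = 2
  · rw [dif_neg (fun h => h.2 h2)]
    rw [prod_eq_zero (mem_univ (0 : Fin (2 * g + 1)))]
    rw [if_neg (fun h => h.1 h2)]
  · rw [dif_pos ⟨hp, h2⟩]
    by_cases h3 : (Pool.Agent.Y57.FD.HM.pol p (D := 2 * g + 1) (fun i => ((m i : ℕ) : ZMod p))).Separable
    · have h4 : Good p m := ⟨h2, h3⟩
      rw [if_pos h3]
      unfold Q282.HL.pA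
      refine prod_congr rfl fun j _ => ?_
      rw [if_pos h4, expCoeff_eq p h2 m (i j)]
    · have h4 : ¬ Good p m := fun h => h3 h.2
      rw [if_neg h3]
      rw [prod_eq_zero (mem_univ (0 : Fin (2 * g + 1)))]
      rw [if_neg h4]

lemma haar_eq {l : ℕ} (i : Fin l → ℕ) : haar i = Q282.HL.symm i := rfl

/-- Let `g ≥ 1`, a base `b ≥ 2`, `δ > 0` and integers `A, B ≥ 0` be given. There are `c > 0` and `y₀` such that for all
integers `r l`, `K l` (`l = 0, ..., 2 g`), `y` with `2 r l ≤ K l` and `y ≥ y₀` the following holds.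

Let `0 ≤ N l < b ^ K l` be arbitrary integers, prescribe for every position `j` a digit `f l j` different from the digit of
`N l` in base `b`, and let for every `n` an arbitrary set `W n` of at most `n ^ B` weights `w : ℕ → [-1, 1]` be given (for instance
the indicator functions of intervals, residue classes or other sets of primes, or the values of characters). If one chooses `r l` of
the `K l` positions and replaces the digits of `N l` at these positions, then for all but at most a proportion `1 / y ^ A` of the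
choices the Jacobian of the curve `Y ^ 2 = X ^ (2 g + 1) + m (2 g) X ^ (2 g) + ... + m 0` with the numbers `m l` obtained has
the following property: for all integers `n` with `y ≤ n ≤ exp (c r l)` for all `l`, all weights `w ∈ W n` and all monomials
`∏ a_{i_j}` of degree `∑ i_j ≤ 2 g + 1` in the coefficients of `det (1 - T x_p)` the weighted sum of the values over the first `n`
primes `p` is the sum of the weights times the integral over `USp(2g)`, up to an error of at most
`(max 1 (∑ w k ^ 2)) ^ (1 / 2) n ^ δ`. -/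
theorem result (g b : ℕ) (hg : 1 ≤ g) (hb : 2 ≤ b) (δ : ℝ) (hδ : 0 < δ) (A B : ℕ) :
    ∃ c : ℝ, 0 < c ∧ ∃ y₀ : ℕ, ∀ (K r : Fin (2 * g + 1) → ℕ) (y : ℕ), (∀ l, 2 * r l ≤ K l) → y₀ ≤ y →
    ∀ N : Fin (2 * g + 1) → ℕ, (∀ l, N l < b ^ K l) →
    ∀ f : Fin (2 * g + 1) → ℕ → ℕ, (∀ l j, f l j < b ∧ f l j ≠ digit b j (N l)) →
    ∀ W : ℕ → Set (ℕ → ℝ), (∀ n, (W n).Finite ∧ (W n).ncard ≤ n ^ B) → (∀ n, ∀ w ∈ W n, ∀ k, |w k| ≤ 1) →
      (exceptions b K r N f (fun m => ∀ n : ℕ, y ≤ n → (∀ l, (n : ℝ) ≤ Real.exp (c * r l)) → SatoTate δ (W n) n m) : ℝ) ≤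
        1 / (y : ℝ) ^ A * ∏ l, ((K l).choose (r l) : ℝ) := by
  classical
  -- the finite set of the exponents
  obtain ⟨J, hJ⟩ : ∃ J : Finset (Fin (2 * g + 1) → ℕ), J =
    (Fintype.piFinset fun _ => range (2 * g + 2)).filter fun i => ∑ j, i j ≤ 2 * g + 1 := ⟨_, rfl⟩
  have hmemJ : ∀ i : Fin (2 * g + 1) → ℕ, i ∈ J ↔ ∑ j, i j ≤ 2 * g + 1 := by
    intro i
    rw [hJ, mem_filter, Fintype.mem_piFinset]
    refine ⟨fun h => h.2, fun h => ⟨fun j => ?_, h⟩⟩
    have h1 : i j ≤ ∑ j, i j := single_le_sum (fun _ _ => Nat.zero_le _) (mem_univ j)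
    rw [mem_range]
    omega
  -- the constants of the local means
  have hch : ∀ i : Fin (2 * g + 1) → ℕ, ∃ C : ℝ, 0 ≤ C ∧ (∑ j, i j ≤ 2 * g + 1 → ∀ p : ℕ, p.Prime →
      |Pool.Agent.TH894.NE.mean (2 * g + 1) p (fun m => ∏ j, coef p (i j) m - (haar i : ℝ))| ≤ C / p) := by
    intro i
    by_cases hi : ∑ j, i j ≤ 2 * g + 1
    · obtain ⟨C, hC0, hC⟩ := Q282.HL.prodA_mean g i hi
      refine ⟨C, hC0, fun _ p hp => ?_⟩
      have h := hC p hp
      have e : (fun m : Fin (2 * g + 1) → ℕ => ∏ j, coef p (i j) m - (haar i : ℝ)) =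
          fun m => Q282.HL.prodA g i p m + (- (haar i : ℝ)) := by
        funext m
        rw [prod_eq i p hp, sub_eq_add_neg]
      rw [e, Pool.Agent.TH894.NE.mean_add, Pool.Agent.TH894.NE.mean_const _ p hp.pos, ← sub_eq_add_neg, haar_eq]
      exact h
    · exact ⟨0, le_rfl, fun h1 => absurd h1 hi⟩
  choose C hC0 hC using hch
  obtain ⟨C', hC'⟩ : ∃ C' : ℝ, C' = ∑ i ∈ J, C i := ⟨_, rfl⟩
  have hC'0 : 0 ≤ C' := by
    rw [hC']
    exact sum_nonneg fun i _ => hC0 i
  obtain ⟨M, hM⟩ : ∃ M : ℝ, M = 1 + ∑ i ∈ J, ((5 * (2 * g + 1) : ℝ) ^ (∑ j, i j) + (haar i : ℝ)) := ⟨_, rfl⟩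
  have hMj : ∀ i ∈ J, (5 * (2 * g + 1) : ℝ) ^ (∑ j, i j) + (haar i : ℝ) ≤ M := by
    intro i hi
    have h1 : (5 * (2 * g + 1) : ℝ) ^ (∑ j, i j) + (haar i : ℝ) ≤
        ∑ i ∈ J, ((5 * (2 * g + 1) : ℝ) ^ (∑ j, i j) + (haar i : ℝ)) :=
      single_le_sum (f := fun i : Fin (2 * g + 1) → ℕ => (5 * (2 * g + 1) : ℝ) ^ (∑ j, i j) + (haar i : ℝ))
        (fun i _ => by positivity) hi
    linarith
  have hM1 : 1 ≤ M := by
    rw [hM]
    have : 0 ≤ ∑ i ∈ J, ((5 * (2 * g + 1) : ℝ) ^ (∑ j, i j) + (haar i : ℝ)) := sum_nonneg fun i _ => by positivity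
    linarith
  obtain ⟨c, hc, y₁, h⟩ := Pool.Agent.Y57.FD.tuples0 b (2 * g + 1) 1 hb (by omega) le_rfl δ hδ A (B + J.card) M C' hM1 hC'0
  refine ⟨c, hc, y₁ + 2, fun K r y hrK hy N hN f hf W hW hW1 => ?_⟩
  rw [exc_eq]
  have hWf : ∀ n, (W n).Finite := fun n => (hW n).1
  refine h K r y hrK (by omega) N hN f hf
    ((ℕ → ℝ) × (Fin (2 * g + 1) → ℕ)) (fun n => (hWf n).toFinset ×ˢ J) ?_ (fun l => l.1) ?_
    (fun l _ p m => if p.Prime ∧ l.2 ∈ J then ∏ j, coef p (l.2 j) m - (haar l.2 : ℝ) else 0)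
    ?_ ?_ ?_ _ ?_
  · intro n hn
    rw [card_product, ← Set.ncard_eq_toFinset_card _ (hWf n), pow_add]
    refine Nat.mul_le_mul (hW n).2 ?_
    calc J.card ≤ 2 ^ J.card := (Nat.lt_two_pow_self).le
      _ ≤ n ^ J.card := Nat.pow_le_pow_left hn _
  · intro n l hl k
    rw [mem_product, Set.Finite.mem_toFinset] at hl
    exact hW1 n l.1 hl.1 k
  · intro l _ p hp m
    have h1 : ∏ j, coef p (l.2 j) m = ∏ j, coef p (l.2 j) (fun j => m j % p) := by
      rw [prod_eq _ p hp, prod_eq _ p hp]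
      exact Q282.HL.prodA_mod g l.2 p m
    show (if p.Prime ∧ l.2 ∈ J then ∏ j, coef p (l.2 j) m - (haar l.2 : ℝ) else 0) =
      (if p.Prime ∧ l.2 ∈ J then ∏ j, coef p (l.2 j) (fun j => m j % p) - (haar l.2 : ℝ) else 0)
    rw [← h1]
  · intro l _ p hp m
    show |(if p.Prime ∧ l.2 ∈ J then ∏ j, coef p (l.2 j) m - (haar l.2 : ℝ) else 0)| ≤ M
    split_ifs with h1
    · refine (abs_sub _ _).trans (le_trans ?_ (hMj l.2 h1.2))
      refine add_le_add ?_ (le_of_eq (abs_of_nonneg (Nat.cast_nonneg _)))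
      rw [prod_eq _ p hp]
      exact Q282.HL.prodA_le g l.2 p m
    · rw [abs_zero]
      linarith
  · intro n l hl
    rw [mem_product] at hl
    refine ⟨0, fun p hp => ?_⟩
    have hp0 : (0 : ℝ) < p := by exact_mod_cast hp.pos
    have hp1 : (1 : ℝ) ≤ p := by exact_mod_cast hp.one_lt.le
    have h2 : (fun m : Fin (2 * g + 1) → ℕ => if p.Prime ∧ l.2 ∈ J then ∏ j, coef p (l.2 j) m - (haar l.2 : ℝ) else 0) =
        fun m : Fin (2 * g + 1) → ℕ => ∏ j, coef p (l.2 j) m - (haar l.2 : ℝ) := by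
      funext m
      rw [if_pos ⟨hp, hl.2⟩]
    show |Pool.Agent.TH894.NE.mean (2 * g + 1) p (fun m : Fin (2 * g + 1) → ℕ =>
      if p.Prime ∧ l.2 ∈ J then ∏ j, coef p (l.2 j) m - (haar l.2 : ℝ) else 0)| ≤ _
    rw [h2]
    refine (hC l.2 ((hmemJ _).1 hl.2) p hp).trans ?_
    have h3 : C l.2 ≤ C' := by
      rw [hC']
      exact single_le_sum (f := C) (fun j _ => hC0 j) hl.2
    have h4 : Real.sqrt p ≤ p := by
      rw [Real.sqrt_le_left hp0.le]
      nlinarith
    calc C l.2 / (p : ℝ) ≤ C' / p := div_le_div_of_nonneg_right h3 hp0.le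
      _ ≤ C' / Real.sqrt p := div_le_div_of_nonneg_left hC'0 (Real.sqrt_pos.2 hp0) h4
  · intro m hm n hyn hnr w hw i hi
    have hiJ : i ∈ J := (hmemJ i).2 hi
    have h1 := hm n (by omega) (by omega) hnr (w, i) (by
      rw [mem_product, Set.Finite.mem_toFinset]
      exact ⟨hw, hiJ⟩)
    have h2 : ∑ k ∈ range n, w k * ∏ j, coef (Nat.nth Nat.Prime k) (i j) m - (∑ k ∈ range n, w k) * haar i =
        ∑ k ∈ range n, w k * ∏ _i : Fin 1,
        (if (Pool.Agent.TH894.NF.pr (k + _i)).Prime ∧ i ∈ J then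
          ∏ j, coef (Pool.Agent.TH894.NF.pr (k + _i)) (i j) m - (haar i : ℝ) else 0) := by
      rw [sum_mul, ← sum_sub_distrib]
      refine sum_congr rfl fun k _ => ?_
      rw [Fin.prod_univ_one, if_pos ⟨Pool.Agent.TH894.NF.pr_prime _, hiJ⟩, ← mul_sub]
      rfl
    rw [h2]
    exact h1

end Pool.Agent.Results.MP_c481b3_nt.ClassFunctionsHyperelliptic
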