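import Pool.Agent.Q284.JM.Fin

/-!
# The joint Sato–Tate law of many elliptic curves

Let `A` be isogenous to a product `E_1 × ... × E_n` of elliptic curves over the number field `K` without complex multiplication, no
two of which are isogenous over an extension of `K`.  Then `ST(A) = SU(2)^n`, and the problem for `A` asks for the joint law of the
angles `θ_{1,v}, ..., θ_{n,v}`.  The law of one curve is known over totally real fields and over CM fields, that of two
curves over totally real fields, with the theory of Rankin and Selberg; for `n ≥ 3` the problem is open over every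
field, also over `ℚ`, since nothing is known on the poles and zeros of the `L`-functions of the products of three symmetric powers.

The theorem: suppose that each of the families of angles obeys the law of Sato and Tate, and that the functions
`L(Sym^{a_1} E_1 ⊗ ... ⊗ Sym^{a_n} E_n, s)` with at least two `a_i ≠ 0` are meromorphic at the point `s = 1`; nothing is supposed about
their poles and zeros.  Then

* for `i ≠ j` the order of the pole of `L(Sym^2 E_i ⊗ Sym^2 E_j, s)` at `s = 1` is zero or one, and it is one if and only if `E_i` and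
  `E_j` are quadratic twists of each other in the sense that `cos² θ_{i,v} - cos² θ_{j,v}` tends to zero on a set of
  primes of density one;
* if none of these `n (n - 1) / 2` functions has a pole, then the joint law is the product law, and none of the functions has a pole
  or a zero at `s = 1`; in particular the joint law holds for all curves if it holds for all pairs of curves;
* the same for the natural density, if the functions are meromorphic at all points of `Re s = 1`.

This is the analogue for laws of the lemma of Goursat and Ribet.  Proof: let `X_a = ∏ U_{a_i}(θ_i)`; its mean value is the order of the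
pole, an integer.  If it is not zero, and if the subfamilies are independent, then the inequality of Cauchy and Schwarz is an
equality, hence `U_{a_i}(θ_i) = ± ∏_{j ≠ i} U_{a_j}(θ_j)` for one hundred percent of the primes, and the fourth moments give
`a_i + 1 = ∏_{j ≠ i} (a_j + 1)`, for all `i` of the support.  Hence the support consists of two elements with
`a_i = a_j`, and multiplication of `U_a(θ_i)² = U_a(θ_j)²` with `U_2(θ_i)` gives the pole of `L(Sym^2 E_i ⊗ Sym^2 E_j, s)`.
-/

set_option autoImplicit false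
set_option linter.unusedSectionVars false

namespace Pool.Agent.Results.MP_c481b3_nt.JointLawManyCurves

open NumberField IsDedekindDomain Filter Topology

section

variable {K : Type} [Field K] [NumberField K]

/-- The norm of a prime. -/
noncomputable def q (v : HeightOneSpectrum (𝓞 K)) : ℕ := Ideal.absNorm v.asIdeal

/-- `φ` has the mean value `c`, in the sense of the Dirichlet density. -/
def HasMean (φ : HeightOneSpectrum (𝓞 K) → ℝ) (c : ℝ) : Prop :=
  Tendsto (fun ε : ℝ => (∑' v, φ v * (q v : ℝ) ^ (-(1 + ε))) / ∑' v, (q (K := K) v : ℝ) ^ (-(1 + ε)))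
    (𝓝[>] 0) (𝓝 c)

/-- `φ` has the mean value `c`, in the sense of the natural density. -/
def HasAverage (φ : HeightOneSpectrum (𝓞 K) → ℝ) (c : ℝ) : Prop :=
  Tendsto (fun N : ℕ => (∑ᶠ v : {v : HeightOneSpectrum (𝓞 K) // q v ≤ N}, φ v.1) /
    (Nat.card {v : HeightOneSpectrum (𝓞 K) // q v ≤ N} : ℝ)) atTop (𝓝 c)

/-- The law of Sato and Tate `(2/π) sin² t dt` on `[0, π]`. -/
noncomputable def satoTate (g : ℝ → ℝ) : ℝ :=
  2 / Real.pi * ∫ t in (0 : ℝ)..Real.pi, g t * Real.sin t ^ 2

/-- The angles obey the law of Sato and Tate, for the Dirichlet density. -/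
def SatoTate (θ : HeightOneSpectrum (𝓞 K) → ℝ) : Prop :=
  ∀ f : ℝ → ℝ, Continuous f →
    HasMean (fun v => f (Real.cos (θ v))) (satoTate fun t => f (Real.cos t))

/-- The angles obey the law of Sato and Tate, for the natural density. -/
def NaturalSatoTate (θ : HeightOneSpectrum (𝓞 K) → ℝ) : Prop :=
  ∀ f : ℝ → ℝ, Continuous f →
    HasAverage (fun v => f (Real.cos (θ v))) (satoTate fun t => f (Real.cos t))

open Classical in
/-- The angles `θ` and `ψ` are those of quadratic twists: `cos² θ_v - cos² ψ_v` tends to zero on a set of primes of density one. -/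
def Twist (θ ψ : HeightOneSpectrum (𝓞 K) → ℝ) : Prop :=
  ∀ δ : ℝ, 0 < δ →
    HasMean (fun v => if δ ≤ |Real.cos (θ v) ^ 2 - Real.cos (ψ v) ^ 2| then (1 : ℝ) else 0) 0

/-- Two families are independent and obey the law of Sato and Tate. -/
def PairLaw (θ ψ : HeightOneSpectrum (𝓞 K) → ℝ) : Prop :=
  ∀ f g : ℝ → ℝ, Continuous f → Continuous g →
    HasMean (fun v => f (Real.cos (θ v)) * g (Real.cos (ψ v)))
      ((satoTate fun t => f (Real.cos t)) * satoTate fun t => g (Real.cos t))

variable {ι : Type} [Fintype ι] (θ : ι → HeightOneSpectrum (𝓞 K) → ℝ)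

/-- The joint law is the product law: all products `∏ f_i (cos θ_{i,v})` of continuous functions have the mean value
`∏ ∫ f_i (cos t) (2/π) sin² t dt`, for the Dirichlet density. -/
def JointLaw : Prop :=
  ∀ f : ι → ℝ → ℝ, (∀ i, Continuous (f i)) →
    HasMean (fun v => ∏ i, f i (Real.cos (θ i v))) (∏ i, satoTate fun t => f i (Real.cos t))

/-- The joint law is the product law, for the natural density. -/
def NaturalJointLaw : Prop :=
  ∀ f : ι → ℝ → ℝ, (∀ i, Continuous (f i)) →
    HasAverage (fun v => ∏ i, f i (Real.cos (θ i v))) (∏ i, satoTate fun t => f i (Real.cos t))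

variable [DecidableEq ι]

/-- The Euler product `L(Sym^{a_1} E_1 ⊗ ... ⊗ Sym^{a_n} E_n, s)`, that is
`∏_v ∏_j (1 - e^{i ∑ (a_k - 2 j_k) θ_{k,v}} q_v^{-s})⁻¹` over the `j = (j_k)` with `0 ≤ j_k ≤ a_k`. -/
noncomputable def tensorL (a : ι → ℕ) (s : ℂ) : ℂ :=
  ∏' v, (∏ j : (∀ i, Fin (a i + 1)),
    (1 - Complex.exp ((∑ i, ((a i : ℂ) - 2 * (j i : ℕ)) * θ i v) * Complex.I) * (q v : ℂ) ^ (-s)))⁻¹

/-- `Λ` is a meromorphic continuation of `L(Sym^{a_1} E_1 ⊗ ... ⊗ Sym^{a_n} E_n, s)` to a neighbourhood of `1 + iτ`. -/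
def IsContinuation (a : ι → ℕ) (τ : ℝ) (Λ : ℂ → ℂ) : Prop :=
  MeromorphicAt Λ (1 + τ * Complex.I) ∧
    ∀ᶠ s in 𝓝 ((1 : ℂ) + τ * Complex.I), (1 : ℝ) < s.re → Λ s = tensorL θ a s

end

/-- At least two of the exponents are different from zero. -/
def Proper {ι : Type} (a : ι → ℕ) : Prop := ∃ i j, i ≠ j ∧ a i ≠ 0 ∧ a j ≠ 0

/-- The exponents of `Sym^2 E_i ⊗ Sym^2 E_j`. -/
def twoTwo {ι : Type} [DecidableEq ι] (i j : ι) (k : ι) : ℕ := if k = i ∨ k = j then 2 else 0

section Bridge

open Pool.Agent.Q284.IM Pool.Agent.Q284.JM Pool.Agent.TH553.ST Pool.Agent.TH553.RS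
  Pool.Agent.W540.BE

variable {K : Type} [Field K] [NumberField K]

theorem mean_iff {φ : HeightOneSpectrum (𝓞 K) → ℝ} {c : ℝ} :
    HasMean φ c ↔ Tendsto (dm φ) (𝓝[>] 0) (𝓝 c) := by
  unfold HasMean
  have : (fun ε : ℝ => (∑' v, φ v * (q v : ℝ) ^ (-(1 + ε))) /
      ∑' v, (q (K := K) v : ℝ) ^ (-(1 + ε))) = dm φ := by
    funext ε
    unfold dm EP
    simp only [one_mul]
    rfl
  rw [this]

theorem avg_iff {φ : HeightOneSpectrum (𝓞 K) → ℝ} {c : ℝ} :
    HasAverage φ c ↔ Tendsto (mn φ) atTop (𝓝 c) := by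
  unfold HasAverage
  have : (fun N : ℕ => (∑ᶠ v : {v : HeightOneSpectrum (𝓞 K) // q v ≤ N}, φ v.1) /
      (Nat.card {v : HeightOneSpectrum (𝓞 K) // q v ≤ N} : ℝ)) = mn φ := by
    funext N
    have hs : ∀ v, v ∈ upto K N ↔ q v ≤ N := fun v => mem_upto
    let e : {v : HeightOneSpectrum (𝓞 K) // q v ≤ N} ≃ (upto K N) :=
      Equiv.subtypeEquivRight fun v => (hs v).symm
    have hfin : Finite {v : HeightOneSpectrum (𝓞 K) // q v ≤ N} := Finite.of_equiv _ e.symm
    unfold mn
    have h1 : (∑ᶠ v : {v : HeightOneSpectrum (𝓞 K) // q v ≤ N}, φ v.1) = ∑ v ∈ upto K N, φ v := by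
      rw [← Finset.sum_coe_sort, ← finsum_eq_sum_of_fintype, ← finsum_comp_equiv e]
      rfl
    have h2 : Nat.card {v : HeightOneSpectrum (𝓞 K) // q v ≤ N} = (upto K N).card := by
      rw [Nat.card_congr e, Nat.card_eq_fintype_card, Fintype.card_coe]
    rw [h1, h2, smul_eq_mul, div_eq_inv_mul]
  rw [this]

theorem st_eq (g : ℝ → ℝ) : satoTate g = st g := rfl

theorem twist_iff {θ ψ : HeightOneSpectrum (𝓞 K) → ℝ} :
    Twist θ ψ ↔ ∀ δ : ℝ, 0 < δ → Tendsto (dm (rl θ ψ δ)) (𝓝[>] 0) (𝓝 0) := by
  unfold Twist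
  simp only [mean_iff]
  rfl

theorem M_st {θ : HeightOneSpectrum (𝓞 K) → ℝ} (h : SatoTate θ) {U : Ultrafilter ℝ}
    (hU : (U : Filter ℝ) ≤ 𝓝[>] 0) {g : ℝ → ℝ} (hg : Fc g) :
    (M (nm K) U fun v => g (θ v)) = st g := by
  obtain ⟨f, hf, rfl⟩ := hg
  exact M_of_dm (mean_iff.1 (h f hf)) hU

variable {ι : Type} [Fintype ι] {θ : ι → HeightOneSpectrum (𝓞 K) → ℝ}

theorem joint_iff : JointLaw θ ↔ ∀ g : ι → ℝ → ℝ, (∀ i, Fc (g i)) →
    Tendsto (dm fun v => ∏ i, g i (θ i v)) (𝓝[>] 0) (𝓝 (∏ i, st (g i))) := by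
  unfold JointLaw
  constructor
  · intro h g hg
    choose f hf hfg using hg
    have h1 := mean_iff.1 (h f hf)
    have h2 : g = fun i t => f i (Real.cos t) := funext hfg
    rw [h2]
    exact h1
  · intro h f hf
    exact mean_iff.2 (h (fun i t => f i (Real.cos t)) fun i => ⟨f i, hf i, rfl⟩)

theorem njoint_iff : NaturalJointLaw θ ↔ ∀ g : ι → ℝ → ℝ, (∀ i, Fc (g i)) →
    Tendsto (mn fun v => ∏ i, g i (θ i v)) atTop (𝓝 (∏ i, st (g i))) := by
  unfold NaturalJointLaw
  constructor
  · intro h g hg
    choose f hf hfg using hg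
    have h1 := avg_iff.1 (h f hf)
    have h2 : g = fun i t => f i (Real.cos t) := funext hfg
    rw [h2]
    exact h1
  · intro h f hf
    exact avg_iff.2 (h (fun i t => f i (Real.cos t)) fun i => ⟨f i, hf i, rfl⟩)

variable [DecidableEq ι]

theorem tensorL_eq (a : ι → ℕ) (s : ℂ) : tensorL θ a s = TL θ a s := by
  unfold tensorL TL
  refine tprod_congr fun v => ?_
  congr 1
  refine Finset.prod_congr rfl fun j _ => ?_
  unfold eg
  push_cast
  rfl

theorem ct_iff {a : ι → ℕ} {τ : ℝ} {Λ : ℂ → ℂ} : IsContinuation θ a τ Λ ↔ Ct θ a τ Λ := by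
  unfold IsContinuation Ct
  simp only [tensorL_eq]

theorem proper_iff {a : ι → ℕ} : Proper a ↔ 2 ≤ (sp a).card := by
  constructor
  · rintro ⟨i, j, hij, hi, hj⟩
    exact Finset.one_lt_card.2 ⟨i, mem_sp.2 hi, j, mem_sp.2 hj, hij⟩
  · intro h
    obtain ⟨i, hi, j, hj, hij⟩ := Finset.one_lt_card.1 h
    exact ⟨i, j, hij, mem_sp.1 hi, mem_sp.1 hj⟩

theorem two_eq {i j : ι} (hij : i ≠ j) : twoTwo i j = px i j 2 2 := by
  funext k
  unfold twoTwo px
  rw [Pi.add_apply]
  by_cases h : k = i
  · subst h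
    simp [hij]
  · by_cases h' : k = j
    · subst h'
      simp [h]
    · simp [h, h']

theorem X_mean_zero {U : Ultrafilter ℝ} {g : ι → ℝ → ℝ}
    (h : M (nm K) U (fun v => ∏ i, g i (θ i v)) = ∏ i, st (g i)) {a : ι → ℕ}
    (hga : g = fun i => u (a i)) (ha : a ≠ 0) : M (nm K) U (X θ a) = 0 := by
  subst hga
  obtain ⟨i, hi⟩ := Function.ne_iff.1 ha
  have hi' : a i ≠ 0 := hi
  have h1 : ∏ i, st (u (a i)) = 0 :=
    Finset.prod_eq_zero (Finset.mem_univ i) (by rw [st_u, if_neg hi'])
  rw [← h1, ← h]
  rfl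

/-- one exponent different from zero -/
theorem single_avg (h : ∀ i, NaturalSatoTate (θ i)) {a : ι → ℕ} (ha : a ≠ 0)
    (hp : ¬ 2 ≤ (sp a).card) : Tendsto (mn (X θ a)) atTop (𝓝 0) := by
  obtain ⟨i, hi⟩ := Function.ne_iff.1 ha
  have hi' : a i ≠ 0 := hi
  have h1 : sp a = {i} := by
    have h2 : (sp a).card = 1 := by
      have := Finset.card_pos.2 ⟨i, mem_sp.2 hi⟩
      omega
    obtain ⟨j, hj⟩ := Finset.card_eq_one.1 h2
    have : i ∈ sp a := mem_sp.2 hi
    rw [hj, Finset.mem_singleton] at this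
    rw [hj, this]
  have e : X θ a = fun v => u (a i) (θ i v) := by
    funext v
    rw [X_eq θ (Finset.Subset.refl (sp a)), h1, Finset.prod_singleton]
  obtain ⟨f, hf, hfu⟩ := fc_u (a i)
  have h3 := avg_iff.1 (h i f hf)
  rw [← hfu, st_eq, st_u, if_neg hi'] at h3
  rw [e, hfu]
  exact h3

end Bridge

/-- **The joint law of Sato and Tate for many families.**  Let `K` be a number field and `θ_i`, `i ∈ ι`, finitely many families of
angles at the primes of `K`, each of which obeys the law of Sato and Tate (for the Dirichlet density), such that the Euler products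
`L(Sym^{a_1} E_1 ⊗ ... ⊗ Sym^{a_n} E_n, s)` with at least two `a_i ≠ 0` have meromorphic continuations to neighbourhoods of `s = 1`;
let `m a` be the orders of their poles.

I.   For `i ≠ j` the order of the pole of `L(Sym^2 E_i ⊗ Sym^2 E_j, s)` is zero or one, and it is one if and only if
     `cos² θ_{i,v} - cos² θ_{j,v}` tends to zero on a set of primes of density one.
II.  The joint law is the product law if and only if none of the `L(Sym^2 E_i ⊗ Sym^2 E_j, s)`, `i ≠ j`, has a pole at `s = 1`.  In this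
     case none of the functions has a pole or a zero at `s = 1`.
III. The joint law is the product law if and only if this holds for all pairs of families.
IV.  If each family obeys the law of Sato and Tate for the natural density, and if all the Euler products are meromorphic at all points
     of `Re s = 1`, then the joint law is the product law for the natural density if and only if
     none of the `L(Sym^2 E_i ⊗ Sym^2 E_j, s)`, `i ≠ j`, has a pole at `s = 1`. -/
theorem result (K : Type) [Field K] [NumberField K] (ι : Type) [Fintype ι] [DecidableEq ι]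
    (θ : ι → HeightOneSpectrum (𝓞 K) → ℝ) (hθ : ∀ i, SatoTate (θ i))
    (hL : ∀ a : ι → ℕ, Proper a → ∃ Λ, IsContinuation θ a 0 Λ) :
    ∃ m : (ι → ℕ) → ℤ,
      (∀ a : ι → ℕ, Proper a → ∀ Λ, IsContinuation θ a 0 Λ →
        meromorphicOrderAt Λ 1 = ((-m a : ℤ) : WithTop ℤ)) ∧
      (∀ i j : ι, i ≠ j → (m (twoTwo i j) = 0 ∨ m (twoTwo i j) = 1) ∧
        (m (twoTwo i j) = 1 ↔ Twist (θ i) (θ j))) ∧
      (JointLaw θ ↔ ∀ i j : ι, i ≠ j → m (twoTwo i j) = 0) ∧
      (JointLaw θ → ∀ a : ι → ℕ, Proper a → m a = 0) ∧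
      (JointLaw θ ↔ ∀ i j : ι, i ≠ j → PairLaw (θ i) (θ j)) ∧
      ((∀ i, NaturalSatoTate (θ i)) →
        (∀ a : ι → ℕ, Proper a → ∀ τ : ℝ, ∃ Λ, IsContinuation θ a τ Λ) →
        (NaturalJointLaw θ ↔ ∀ i j : ι, i ≠ j → m (twoTwo i j) = 0)) := by
  open Pool.Agent.Q284.IM Pool.Agent.Q284.JM Pool.Agent.TH553.RS Pool.Agent.TH553.ST in
  simp only [ct_iff, proper_iff] at hL ⊢
  obtain ⟨m, hm1, hm⟩ := Pool.Agent.Q284.JM.exists_m θ hL
  have h1 : (1 : ℂ) + ((0 : ℝ) : ℂ) * Complex.I = 1 := by simp
  have hst : ∀ U : Ultrafilter ℝ, (U : Filter ℝ) ≤ 𝓝[>] 0 → ∀ i g, Fc g →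
      (M (Pool.Agent.W540.BE.nm K) U fun v => g (θ i v)) = st g :=
    fun U hU i g hg => M_st (hθ i) hU hg
  set U₀ : Ultrafilter ℝ := Ultrafilter.of (𝓝[>] 0) with hU₀
  have h₀ : (U₀ : Filter ℝ) ≤ 𝓝[>] 0 := Ultrafilter.of_le _
  have hall := all_of_pairs θ hst hm
  have hcard : ∀ i j : ι, i ≠ j → 2 ≤ (sp (px i j 2 2)).card := fun i j hij => by
    rw [sp_px hij two_ne_zero two_ne_zero, Finset.card_pair hij]
  have hback : JointLaw θ → ∀ a : ι → ℕ, 2 ≤ (sp a).card → m a = 0 := by
    intro h a ha
    have ha0 : a ≠ 0 := by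
      rintro rfl
      have : sp (0 : ι → ℕ) = ∅ := by
        ext k
        rw [mem_sp]
        simp
      rw [this] at ha
      simp at ha
    have h2 := X_mean_zero (M_of_dm (joint_iff.1 h (fun i => u (a i)) fun i => fc_u _) h₀) rfl ha0
    have h3 := hm U₀ h₀ a ha
    rw [h2] at h3
    exact_mod_cast h3.symm
  have hforth : (∀ i j : ι, i ≠ j → m (twoTwo i j) = 0) → JointLaw θ := by
    intro h
    refine joint_iff.2 fun g hg => joint_dir θ (hall fun i j hij => ?_) hg
    rw [← two_eq hij]
    exact h i j hij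
  refine ⟨m, fun a ha Λ hΛ => ?_, fun i j hij => ?_, ⟨fun h i j hij => ?_, hforth⟩, hback,
    ⟨fun h i j hij => ?_, fun h => hforth fun i j hij => ?_⟩, fun hnat hline => ⟨fun h => ?_,
    fun h => ?_⟩⟩
  · have := hm1 a ha Λ hΛ
    rwa [h1] at this
  · rw [two_eq hij, twist_iff]
    exact pair_iff θ hst hm hij
  · rw [two_eq hij]
    exact hback h _ (hcard i j hij)
  · -- pairs from the joint law
    intro f g hf hg
    have h2 := joint_iff.1 h (fun k => if k = i then fun t => f (Real.cos t) else
      if k = j then fun t => g (Real.cos t) else fun _ => 1) (fun k => by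
        by_cases hki : k = i
        · rw [if_pos hki]
          exact ⟨f, hf, rfl⟩
        · rw [if_neg hki]
          by_cases hkj : k = j
          · rw [if_pos hkj]
            exact ⟨g, hg, rfl⟩
          · rw [if_neg hkj]
            exact ⟨fun _ => 1, continuous_const, rfl⟩)
    have key : ∀ F : (ℝ → ℝ) → ι → ℝ, (∀ k, F (fun _ => 1) k = 1) →
        ∏ k, F (if k = i then fun t => f (Real.cos t) else
          if k = j then fun t => g (Real.cos t) else fun _ => 1) k =
        F (fun t => f (Real.cos t)) i * F (fun t => g (Real.cos t)) j := by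
      intro F hF
      rw [← Finset.prod_subset (Finset.subset_univ ({i, j} : Finset ι)) (fun k _ hk => by
        rw [Finset.mem_insert, Finset.mem_singleton, not_or] at hk
        rw [if_neg hk.1, if_neg hk.2, hF]), Finset.prod_pair hij, if_pos rfl, if_neg hij.symm,
        if_pos rfl]
    have e1 : (fun v => ∏ k, (if k = i then fun t => f (Real.cos t) else
        if k = j then fun t => g (Real.cos t) else fun _ => 1 : ℝ → ℝ) (θ k v)) =
        fun v => f (Real.cos (θ i v)) * g (Real.cos (θ j v)) := by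
      funext v
      exact key (fun r k => r (θ k v)) (fun k => rfl)
    have e2 : (∏ k, st (if k = i then fun t => f (Real.cos t) else
        if k = j then fun t => g (Real.cos t) else fun _ => 1)) =
        st (fun t => f (Real.cos t)) * st (fun t => g (Real.cos t)) :=
      key (fun r _ => st r) (fun k => by
        have := st_u 0
        rw [if_pos rfl] at this
        have e0 : u 0 = fun _ : ℝ => (1 : ℝ) := funext u_zero
        rwa [e0] at this)
    rw [e1, e2] at h2
    exact mean_iff.2 h2
  · -- the order from the law of the pair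
    rw [two_eq hij]
    obtain ⟨f, hf, hfu⟩ := fc_u 2
    have h2 := M_of_dm (mean_iff.1 (h i j hij f f hf hf)) h₀
    have h3 := hm U₀ h₀ _ (hcard i j hij)
    have hX : X θ (px i j 2 2) = fun v => u 2 (θ i v) * u 2 (θ j v) := funext (X_px hij 2 2)
    have h4 : (satoTate fun t => f (Real.cos t)) = 0 := by
      rw [← hfu, st_eq, st_u, if_neg two_ne_zero]
    rw [h4, zero_mul] at h2
    rw [hX, hfu] at h3
    simp only at h3
    rw [h2] at h3
    exact_mod_cast h3.symm
  · -- natural density, first direction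
    intro i j hij
    rw [two_eq hij]
    have h2 := njoint_iff.1 h (fun k => u (px i j 2 2 k)) fun k => fc_u _
    have h3 := M_of_mn h₀ (bd_X θ (px i j 2 2)) h2
    have h4 : ∏ k, st (u (px i j 2 2 k)) = 0 := by
      refine Finset.prod_eq_zero (Finset.mem_univ i) ?_
      have : px i j 2 2 i = 2 := by
        unfold px
        simp [hij]
      rw [this, st_u, if_neg two_ne_zero]
    have h5 := hm U₀ h₀ _ (hcard i j hij)
    rw [h3, h4] at h5
    exact_mod_cast h5.symm
  · -- natural density, second direction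
    have hz := hall fun i j hij => by
      rw [← two_eq hij]
      exact h i j hij
    have hm0 := hback (hforth h)
    refine njoint_iff.2 fun g hg => joint_nat θ (fun a ha => ?_) hg
    by_cases hp : 2 ≤ (sp a).card
    · refine avg_zero θ fun τ => ?_
      obtain ⟨Λ, hΛ⟩ := hline a hp τ
      refine ⟨Λ, hΛ, ?_⟩
      rcases eq_or_ne τ 0 with rfl | hτ
      · rw [hm1 a hp Λ hΛ, hm0 a hp, neg_zero]
      · exact Pool.Agent.Q284.JM.order_line θ hz hτ hΛ
    · exact single_avg hnat ha hp

end Pool.Agent.Results.MP_c481b3_nt.JointLawManyCurves
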