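import Pool.Agent.Q284.GE.Lev

/-!
# One representation with all its abelian twists and the Riemann hypothesis does not locate a single Frobenius class

`K = F(T)`, `F` ANY finite field, `q = |F|`.  Let `α a`, `a ∈ A`, be the positive roots of a compact connected simple
group of rank `r`, for instance `USp(2g)` (more generally any finite family of linear forms on `ℝ^r`, one of which,
`α a₀`, is not zero and not proportional to any other).  For `N ≥ 1` the representation `V_((N-1)ρ)` is irreducible of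
dimension `N^|A|`, and by Weyl's character formula its weights are `wt α N x = ∑ a, ((N-1)/2 - x a) α a`,
`x : A → Fin N`; for `SU(2)` (`r = 1`, `A` one element, `α = 2`) it is `Sym^(N-1)`.

For all `N ≥ N₀` and EVERY function `φ` from the finite places of `K` to `ℝ^r` (the conjugacy class at `P` is
`exp (i φ P)`; so any law of the classes whatsoever, or no law) there is `ψ` with `|ψ P - φ P| ≤ C/N` at EVERY place,
such that for EVERY primitive Hayes character `χ` (the idele class characters of `K` up to `|·|^s`), with whatever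
ramification, `L(s, V_((N-1)ρ) ⊗ χ)` is entire, a polynomial in `q^(-s)` of the prescribed degree `D χ` with functional
equation with the prescribed root number `ε χ`, and ALL its zeros are on the line `Re s = 1/2`.  `C` and `N₀` depend only
on the roots, not on `q`.

Projects WE (Weil's bound for all Hayes characters) and GE: plan, statements with paper proofs and assembly by
helper284; lemmas proved by helpers 14, 24, 31, 38, 53, 68, 79, 92, 96, 150, 151, 154, 166, 182, 190, 198, 208, 224, 237,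
241, 265, 275, 277.
-/

set_option autoImplicit false

open Finset Polynomial ComplexConjugate

namespace Pool.Agent.Results.MP_c481b3_nt.OneRepresentationGRH

open Pool.Agent.Q284.PS (Prim Place absPow Nice)
open Pool.Agent.Q284.PX (lin wt repFactor)
open Pool.Agent.Q284.GE (RiemannHypothesis)

theorem result : ∀ (A : Type) [Fintype A] [DecidableEq A] (r : ℕ) (α : A → Fin r → ℝ) (a₀ : A),
    α a₀ ≠ 0 → (∀ b : A, b ≠ a₀ → LinearIndependent ℝ ![α a₀, α b]) →
    ∃ (C : ℝ) (N₀ : ℕ), ∀ N : ℕ, N₀ ≤ N → ∃ M₀ : ℕ, 3 ≤ M₀ ∧ ∀ (F : Type) [Field F] [Fintype F]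
    (φ : F[X] → Fin r → ℝ) (ν M : ℕ), 9 ≤ ν → M₀ ≤ M →
    ∀ (D : F[X] → ℕ → (F[X] → ℂ) → ℕ) (ε : (F[X] → ℂ) → ℂ),
    -- degrees and root numbers
    (∀ (Q : F[X]) (l : ℕ) (χ : F[X] → ℂ), Prim Q l χ →
      ν * (Q.natDegree + max M (l + 1) - 2) ≤ D Q l χ ∧ D Q l (fun f => conj (χ f)) = D Q l χ) →
    (∀ χ, ‖ε χ‖ = 1) → (∀ χ, ε (fun f => conj (χ f)) = conj (ε χ)) →
    ∃ ψ : F[X] → Fin r → ℝ, (∀ P : F[X], P.Monic → Irreducible P → ∀ i, |ψ P i - φ P i| ≤ C / N) ∧
      ∀ (Q : F[X]) (l : ℕ) (χ : F[X] → ℂ), Prim Q l χ → ∃ L : ℂ → ℂ,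
        Nice (Fintype.card F) (D Q l χ) (ε χ) L ∧ RiemannHypothesis L ∧
        ∀ s : ℂ, 1 - 9 / 10 * (1 / 2 - 4 / (ν : ℝ)) < s.re → HasProd (repFactor α N ψ χ s) (L s) := by
  intro A _ _ r α a₀ h0 hli
  obtain ⟨C, N₀, h⟩ := Pool.Agent.Q284.GE.repStm A r α a₀ h0 hli
  refine ⟨C, N₀, ?_⟩
  intro N hN
  obtain ⟨M₀, hM₀, h⟩ := h N hN
  refine ⟨M₀, hM₀, ?_⟩
  intro F _ _ φ ν M hν hM D ε hD hε hεc
  obtain ⟨ψ, h1, h2⟩ := h F φ ν M hν hM (Pool.Agent.Q284.GE.lev D) ε (by
    intro Q l χ hχ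
    rw [Pool.Agent.Q284.GE.lev_eq _ hχ, Pool.Agent.Q284.GE.lev_eq _ (Pool.Agent.Q284.GE.prim_conj hχ)]
    exact hD Q l χ hχ) hε hεc
  refine ⟨ψ, h1, ?_⟩
  intro Q l χ hχ
  obtain ⟨L, h6, h7, h8⟩ := h2 Q l χ hχ
  rw [Pool.Agent.Q284.GE.lev_eq _ hχ] at h6
  exact ⟨L, h6, h7, h8⟩

end Pool.Agent.Results.MP_c481b3_nt.OneRepresentationGRH
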